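import Mathlib
import Pool.Agent.Q278.KT.Stm

/-!
# KT-XE (project KT of helper278, MP_768c9c_nt): the optimisation `OPTX (13/16) (13/16)`
-/

set_option autoImplicit false

namespace Pool.Agent.Q124.KT

open Finset Pool.Agent.Q240.KS Pool.Agent.Q278.KT

/-- the real-number part of the argument: `a` is the relative length of the factor with the smallest quotient -/
theorem xe_core (a c R : ℝ) (ha : 1 / 100000 ≤ a) (hc : 0 < c) (hR : 1.9998 * c ≤ R) (hR2 : R ≤ 13 / 16)
    (ha2 : a ≤ 13 / 16)
    (hsm : 1 / 5 < a → R ≤ 13 / 16 - 2 * a + 4 * (c * a))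
    (hlv : ∀ m : ℕ, 1 ≤ m → m ≤ 100000 → R ≤ max (2 * (m * a) * c)
      (min (13 / 16 - (m * a) + 2 * (m * a) * c) (13 / 16 - 2 * (m * a) + 6 * (m * a) * c)))
    (hmul : a ≤ 0.1873 → ∃ m : ℕ, 1 ≤ m ∧ m ≤ 100000 ∧ 0.8125 ≤ m * a ∧ m * a ≤ 0.9998) : False := by
  have key : ∀ m : ℕ, 1 ≤ m → m ≤ 100000 → (m : ℝ) * a ≤ 0.9998 →
      1.9998 * c ≤ 0.8125 - (m * a) + 2 * (m * a) * c ∧ 1.9998 * c ≤ 0.8125 - 2 * (m * a) + 6 * (m * a) * c := by
    intro m h1 h2 h3
    have h := hlv m h1 h2
    rcases le_max_iff.1 h with h | h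
    · exfalso
      nlinarith
    · have := le_min_iff.1 h
      constructor
      · linarith [this.1]
      · linarith [this.2]
  have keyA : ∀ m : ℕ, 1 ≤ m → m ≤ 100000 → (m : ℝ) * a ≤ 0.9998 → 0.8125 ≤ (m : ℝ) * a → False := by
    intro m h1 h2 h3 h4
    have h := (key m h1 h2 h3).1
    nlinarith
  rcases le_or_gt a 0.1873 with h1 | h1
  · obtain ⟨m, h2, h3, h4, h5⟩ := hmul h1
    exact keyA m h2 h3 h5 h4
  rcases le_or_gt a 0.19996 with h2 | h2
  · exact keyA 5 (by norm_num) (by norm_num) (by push_cast; linarith) (by push_cast; linarith)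
  rcases lt_or_ge a 0.203125 with h3 | h3
  · have h := key 4 (by norm_num) (by norm_num) (by push_cast; linarith)
    push_cast at h
    obtain ⟨e1, e2⟩ := h
    have hc1 : c ≤ 0.032 := by
      by_contra hcon
      push Not at hcon
      nlinarith
    nlinarith
  rcases le_or_gt a 0.24995 with h4 | h4
  · exact keyA 4 (by norm_num) (by norm_num) (by push_cast; linarith) (by push_cast; linarith)
  rcases lt_or_ge a 0.27084 with h5 | h5
  · have h := key 3 (by norm_num) (by norm_num) (by push_cast; linarith)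
    push_cast at h
    obtain ⟨e1, e2⟩ := h
    have hc1 : c ≤ 0.126 := by
      by_contra hcon
      push Not at hcon
      nlinarith
    nlinarith
  rcases le_or_gt a 0.33326 with h6 | h6
  · exact keyA 3 (by norm_num) (by norm_num) (by push_cast; linarith) (by push_cast; linarith)
  rcases lt_or_ge a 0.40625 with h7 | h7
  · have h := key 2 (by norm_num) (by norm_num) (by push_cast; linarith)
    push_cast at h
    obtain ⟨e1, e2⟩ := h
    have hc1 : c ≤ 0.22 := by
      by_contra hcon
      push Not at hcon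
      nlinarith
    nlinarith
  rcases le_or_gt a 0.4999 with h8 | h8
  · exact keyA 2 (by norm_num) (by norm_num) (by push_cast; linarith) (by push_cast; linarith)
  have hs := hsm (by linarith)
  have hc2 : c ≤ 0.4064 := by linarith
  rcases le_or_gt (4 * a) 1.9998 with h9 | h9
  · nlinarith
  · nlinarith

/-- **XE** -/
theorem t_XE (hMINF : S_MINF) (hLVC : S_LVC) (hMUL : S_MUL) : S_XE := by
  intro al ka lam R hC hpos
  by_contra hno
  have hno' : ∀ x : ℝ, x < 0 → ¬ Alt (13 / 16) (13 / 16) x al ka R := fun x hx h => hno ⟨x, hx, h⟩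
  have hone : ∑ i, al i = 1 := by
    have h := hC.one
    have h2 := abs_nonneg (∑ i, al i - 1)
    have h3 : |∑ i, al i - 1| = 0 := le_antisymm h h2
    have h4 := abs_eq_zero.1 h3
    linarith
  obtain ⟨i, hi1, hi2⟩ := hMINF al ka hC.nn hone
  have hR : 2 * ∑ i, ka i ≤ R := by
    by_contra h
    push Not at h
    exact hno' (R - 2 * ∑ i, ka i) (by linarith) (Or.inr (Or.inl (by linarith)))
  have hla := hC.la
  have hR0 := hC.R0
  have hcdef : ∑ i, ka i = 0.9999 * ((∑ i, ka i) / 0.9999) := by
    field_simp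
  have hki : ka i ≤ (∑ i, ka i) / 0.9999 * al i := by
    rw [div_mul_eq_mul_div, le_div_iff₀ (by norm_num)]
    linarith
  have hcpos : 0 < (∑ i, ka i) / 0.9999 := div_pos hpos (by norm_num)
  have hmobsm : ∀ i : Fin 10, 1 / 5 < al i → al i ≤ lam ∧ R ≤ lam - 2 * al i + 4 * ka i := by
    intro i hi
    rcases lt_or_ge (i : ℕ) 5 with h | h
    · have := hC.mob i h
      linarith
    · have := hC.smo i h
      exact ⟨by linarith [this.1], by linarith [this.2.2.2]⟩
  have hale : al i ≤ 13 / 16 := by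
    by_contra h
    push Not at h
    have := hmobsm i (by linarith)
    linarith [this.1]
  refine xe_core (al i) ((∑ i, ka i) / 0.9999) R hi1 hcpos (by linarith) (by linarith) hale ?_ ?_ ?_
  · intro h
    have := (hmobsm i h).2
    linarith
  · intro m h1 h2
    exact hLVC (13 / 16) al ka lam R _ i m hC hi1 hki h1 h2
  · intro h
    exact hMUL (al i) 0.8125 0.9998 hi1 (by norm_num) (by linarith) (by norm_num)

end Pool.Agent.Q124.KT
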