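import Mathlib
import Pool.Agent.Q278.KT.Stm

/-!
# KT-XW (project KT of helper278, MP_768c9c_nt): the optimisation `OPTX (1/2) 0.306`
-/

set_option autoImplicit false

namespace Pool.Agent.Q124.KT

open Finset Pool.Agent.Q240.KS Pool.Agent.Q278.KT

/-- a multiple of `a` between `t` and `3t/2` -/
theorem xw_mul (hMUL : S_MUL) (a t : ℝ) (ha : 1 / 100000 ≤ a) (ht : 0 < t) (ht1 : t ≤ 2 / 3) (ha2 : a ≤ 3 * t / 4) :
    ∃ m : ℕ, 1 ≤ m ∧ m ≤ 100000 ∧ t ≤ m * a ∧ m * a ≤ 3 * t / 2 := by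
  rcases le_or_gt a (t / 2) with h | h
  · exact hMUL a t (3 * t / 2) ha ht (by linarith) (by linarith)
  · refine ⟨2, by norm_num, by norm_num, ?_, ?_⟩
    · push_cast; linarith
    · push_cast; linarith

/-- the large values bound at a multiple between `t` and `3t/2`, `t = 1/(4 - 6c)` -/
theorem xw_bound1 (hMUL : S_MUL) (a c R : ℝ) (ha : 1 / 100000 ≤ a) (hc : 0 < c) (hc2 : c ≤ 1 / 4)
    (ha2 : a * (4 * (4 - 6 * c)) ≤ 3)
    (hlv : ∀ m : ℕ, 1 ≤ m → m ≤ 100000 → R ≤ max (2 * (m * a) * c)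
      (min (1 / 2 - (m * a) + 2 * (m * a) * c) (1 / 2 - 2 * (m * a) + 6 * (m * a) * c))) :
    R * (4 - 6 * c) ≤ 3 * c := by
  have h46 : 0 < 4 - 6 * c := by linarith
  have htpos : 0 < 1 / (4 - 6 * c) := by positivity
  have htdef : 1 / (4 - 6 * c) * (4 - 6 * c) = 1 := by field_simp
  obtain ⟨t, ht⟩ : ∃ t : ℝ, t = 1 / (4 - 6 * c) := ⟨_, rfl⟩
  rw [← ht] at htpos htdef
  have ht1 : t ≤ 2 / 3 := by
    rw [ht, div_le_iff₀ h46]
    linarith
  have hat : a ≤ 3 * t / 4 := by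
    rw [ht]
    have : a ≤ 3 / (4 * (4 - 6 * c)) := by
      rw [le_div_iff₀ (by positivity)]
      exact ha2
    calc a ≤ 3 / (4 * (4 - 6 * c)) := this
      _ = 3 * (1 / (4 - 6 * c)) / 4 := by field_simp
  obtain ⟨m, h1, h2, h3, h4⟩ := xw_mul hMUL a t ha htpos ht1 hat
  obtain ⟨b, hb⟩ : ∃ b : ℝ, b = m * a := ⟨_, rfl⟩
  have h := hlv m h1 h2
  rw [← hb] at h h3 h4
  have hR3 : R ≤ 3 * t * c := by
    rcases le_max_iff.1 h with h | h
    · nlinarith
    · have h5 := (le_min_iff.1 h).2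
      have h6 : (b - t) * (2 - 6 * c) ≥ 0 := mul_nonneg (by linarith) (by linarith)
      nlinarith
  calc R * (4 - 6 * c) ≤ 3 * t * c * (4 - 6 * c) := mul_le_mul_of_nonneg_right hR3 h46.le
    _ = 3 * c * (t * (4 - 6 * c)) := by ring
    _ = 3 * c := by rw [htdef, mul_one]

/-- the large values bound at a multiple between `t` and `3t/2`, `t = 1/(2(1 + c))` -/
theorem xw_bound2 (hMUL : S_MUL) (a c R : ℝ) (ha : 1 / 100000 ≤ a) (hc : 0 < c) (hc2 : c ≤ 1 / 2)
    (ha2 : a * (4 * (2 + 2 * c)) ≤ 3)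
    (hlv : ∀ m : ℕ, 1 ≤ m → m ≤ 100000 → R ≤ max (2 * (m * a) * c)
      (min (1 / 2 - (m * a) + 2 * (m * a) * c) (1 / 2 - 2 * (m * a) + 6 * (m * a) * c))) :
    R * (2 + 2 * c) ≤ 3 * c := by
  have h46 : 0 < 2 + 2 * c := by linarith
  have htpos : 0 < 1 / (2 + 2 * c) := by positivity
  have htdef : 1 / (2 + 2 * c) * (2 + 2 * c) = 1 := by field_simp
  obtain ⟨t, ht⟩ : ∃ t : ℝ, t = 1 / (2 + 2 * c) := ⟨_, rfl⟩
  rw [← ht] at htpos htdef
  have ht1 : t ≤ 2 / 3 := by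
    rw [ht, div_le_iff₀ h46]
    linarith
  have hat : a ≤ 3 * t / 4 := by
    rw [ht]
    have : a ≤ 3 / (4 * (2 + 2 * c)) := by
      rw [le_div_iff₀ (by positivity)]
      exact ha2
    calc a ≤ 3 / (4 * (2 + 2 * c)) := this
      _ = 3 * (1 / (2 + 2 * c)) / 4 := by field_simp
  obtain ⟨m, h1, h2, h3, h4⟩ := xw_mul hMUL a t ha htpos ht1 hat
  obtain ⟨b, hb⟩ : ∃ b : ℝ, b = m * a := ⟨_, rfl⟩
  have h := hlv m h1 h2
  rw [← hb] at h h3 h4
  have hR3 : R ≤ 3 * t * c := by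
    rcases le_max_iff.1 h with h | h
    · nlinarith
    · have h5 := (le_min_iff.1 h).1
      have h6 : (b - t) * (1 - 2 * c) ≥ 0 := mul_nonneg (by linarith) (by linarith)
      nlinarith
  calc R * (2 + 2 * c) ≤ 3 * t * c * (2 + 2 * c) := mul_le_mul_of_nonneg_right hR3 h46.le
    _ = 3 * c * (t * (2 + 2 * c)) := by ring
    _ = 3 * c := by rw [htdef, mul_one]

/-- steps (S3)-(S6) -/
theorem xw_core (hMUL : S_MUL) (a c R : ℝ) (ha : 1 / 100000 ≤ a) (hc : 0 < c) (hN1 : 0.9999 * c ≤ R)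
    (hN2 : 1.9998 * c - 0.194 ≤ R) (hR2 : R ≤ 1 / 2)
    (hsm : 1 / 5 < a → R ≤ 1 / 2 - 2 * a + 4 * (c * a) ∧ a / 2 - 1 / 12 ≤ c * a)
    (hlv : ∀ m : ℕ, 1 ≤ m → m ≤ 100000 → R ≤ max (2 * (m * a) * c)
      (min (1 / 2 - (m * a) + 2 * (m * a) * c) (1 / 2 - 2 * (m * a) + 6 * (m * a) * c))) :
    0.16 < 0.9999 * c ∧ c < 0.2215 ∧ (R * (4 - 6 * c) ≤ 3 * c ∨ R ≤ 1.002 * c) := by
  have hc347 : c ≤ 0.348 := by linarith
  have hS3 : a < 0.2505 := by
    by_contra h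
    push Not at h
    have h1 := (hsm (by linarith)).1
    nlinarith
  have hS4 : 0.16 < 0.9999 * c := by
    by_contra h
    push Not at h
    have hkey : ∀ m : ℕ, 1 ≤ m → m ≤ 100000 → 0.328 ≤ (m : ℝ) * a → (m : ℝ) * a ≤ 0.4995 → False := by
      intro m h1 h2 h3 h4
      have h5 := hlv m h1 h2
      rcases le_max_iff.1 h5 with h6 | h6
      · nlinarith
      · have h7 := (le_min_iff.1 h6).2
        nlinarith
    rcases le_or_gt a 0.1715 with h1 | h1
    · obtain ⟨m, h2, h3, h4, h5⟩ := hMUL a 0.328 0.4995 ha (by norm_num) (by linarith) (by norm_num)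
      exact hkey m h2 h3 h4 h5
    rcases le_or_gt a 0.24975 with h2 | h2
    · exact hkey 2 (by norm_num) (by norm_num) (by push_cast; linarith) (by push_cast; linarith)
    have h3 := (hsm (by linarith)).2
    nlinarith
  have hS5 : c < 0.2215 := by
    by_contra h
    push Not at h
    rcases le_or_gt c (1 / 4) with h1 | h1
    · have h2 := xw_bound1 hMUL a c R ha hc h1 (by nlinarith) hlv
      nlinarith [mul_nonneg (sub_nonneg.2 h) (sub_nonneg.2 h1)]
    · have h2 := xw_bound2 hMUL a c R ha hc (by linarith) (by nlinarith) hlv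
      nlinarith
  refine ⟨hS4, hS5, ?_⟩
  rcases le_or_gt (a * (4 * (4 - 6 * c))) 3 with h1 | h1
  · exact Or.inl (xw_bound1 hMUL a c R ha hc (by linarith) h1 hlv)
  · have h2 := hlv 2 (by norm_num) (by norm_num)
    push_cast at h2
    rcases le_max_iff.1 h2 with h3 | h3
    · right
      nlinarith
    · left
      have h4 := (le_min_iff.1 h3).2
      have h5 : 0 < 4 - 6 * c := by linarith
      have h6 : 0 < 2 - 6 * c := by linarith
      have h7 : R ≤ 1 / 2 - 2 * a * (2 - 6 * c) := by linarith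
      have h8 : R * (4 - 6 * c) ≤ (1 / 2 - 2 * a * (2 - 6 * c)) * (4 - 6 * c) :=
        mul_le_mul_of_nonneg_right h7 h5.le
      have h9 : 0 ≤ (a * (4 * (4 - 6 * c)) - 3) * (2 - 6 * c) := mul_nonneg (by linarith) h6.le
      nlinarith

/-- the three strict inequalities give a negative precision -/
theorem win_mk (lam0 e0 : ℝ) (al ka : Fin 10 → ℝ) (R : ℝ) (S : Finset (Fin 10)) (h1 : gg ka R S < 0)
    (h2 : gg ka R S + lam0 - ∑ i ∈ S, al i < e0) (h3 : 4 * (gg ka R S + 3 / 4 * lam0 - ∑ i ∈ S, al i) < e0) :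
    ∃ x : ℝ, x < 0 ∧ Alt lam0 e0 x al ka R := by
  refine ⟨max (gg ka R S) (max (gg ka R S + lam0 - ∑ i ∈ S, al i - e0)
    (4 * (gg ka R S + 3 / 4 * lam0 - ∑ i ∈ S, al i) - e0)), ?_, Or.inr (Or.inr ⟨S, ?_, ?_, ?_⟩)⟩
  · refine max_lt h1 (max_lt (by linarith) (by linarith))
  · exact le_max_left _ _
  · have h := le_trans (le_max_left (gg ka R S + lam0 - ∑ i ∈ S, al i - e0)
      (4 * (gg ka R S + 3 / 4 * lam0 - ∑ i ∈ S, al i) - e0)) (le_max_right (gg ka R S) _)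
    linarith
  · have h := le_trans (le_max_right (gg ka R S + lam0 - ∑ i ∈ S, al i - e0)
      (4 * (gg ka R S + 3 / 4 * lam0 - ∑ i ∈ S, al i) - e0)) (le_max_right (gg ka R S) _)
    linarith

/-- step (S7)(i) -/
theorem xw_fin1 (c R μ g : ℝ) (h16 : 0.16 < 0.9999 * c) (hc : c < 0.2215)
    (hR : R * (4 - 6 * c) ≤ 3 * c ∨ R ≤ 1.002 * c) (hμ : 1.9998 * c - R - c / 2 ≤ 2 * c * μ)
    (hg : g ≤ -(1.9998 * c - R) + 2 * c * μ) : g - μ < -0.2985 := by
  have hD : 1.097 * c - c ^ 2 < 1.9998 * c - R := by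
    rcases hR with h | h
    · have h46 : 0 < 4 - 6 * c := by linarith
      by_contra hcon
      push Not at hcon
      have h1 : (0.9028 * c + c ^ 2) * (4 - 6 * c) ≤ R * (4 - 6 * c) :=
        mul_le_mul_of_nonneg_right (by linarith) h46.le
      have h2 : 0 < c * (0.6112 - 1.4168 * c - 6 * c ^ 2) := by
        apply mul_pos (by linarith)
        nlinarith
      nlinarith
    · nlinarith
  by_contra hcon
  push Not at hcon
  have h1 : -0.2985 ≤ -(1.9998 * c - R) - (1 - 2 * c) * μ := by linarith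
  have h2 : -0.2985 * (2 * c) ≤ (-(1.9998 * c - R) - (1 - 2 * c) * μ) * (2 * c) :=
    mul_le_mul_of_nonneg_right h1 (by linarith)
  have h3 : (1 - 2 * c) * (1.9998 * c - R - c / 2) ≤ (1 - 2 * c) * (2 * c * μ) :=
    mul_le_mul_of_nonneg_left hμ (by linarith)
  nlinarith

/-- the last inequality of step (S7)(ii) -/
theorem xw_fin2a (c R : ℝ) (h16 : 0.16 < 0.9999 * c) (hc : c < 0.2215)
    (hR : R * (4 - 6 * c) ≤ 3 * c ∨ R ≤ 1.002 * c) : R * (c / 2 + 1 / 2 - R) < 0.4514 * c := by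
  rcases hR with h | h
  · have h46 : 0 < 4 - 6 * c := by linarith
    obtain ⟨r, hr⟩ : ∃ r : ℝ, r = 3 * c / (4 - 6 * c) := ⟨_, rfl⟩
    have hr1 : r * (4 - 6 * c) = 3 * c := by rw [hr, div_mul_cancel₀ _ h46.ne']
    have hRr : R ≤ r := by
      rw [hr, le_div_iff₀ h46]
      exact h
    have hr2 : r ≤ 1 / 4 := by
      rw [hr, div_le_iff₀ h46]
      linarith
    have h1 : 0 ≤ (r - R) * (c / 2 + 1 / 2 - r - R) := mul_nonneg (by linarith) (by linarith)
    have h2 : r * (c / 2 + 1 / 2 - r) < 0.4514 * c := by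
      by_contra hcon
      push Not at hcon
      have h3 : 0.4514 * c * (4 - 6 * c) ^ 2 ≤ r * (c / 2 + 1 / 2 - r) * (4 - 6 * c) ^ 2 :=
        mul_le_mul_of_nonneg_right hcon (by positivity)
      have h4 : r * (c / 2 + 1 / 2 - r) * (4 - 6 * c) ^ 2 =
          (r * (4 - 6 * c)) * (c / 2 + 1 / 2) * (4 - 6 * c) - (r * (4 - 6 * c)) ^ 2 := by ring
      rw [h4, hr1] at h3
      have h5 : 0 < c * (25.2504 * c ^ 2 - 9.6672 * c + 1.2224) := by
        apply mul_pos (by linarith)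
        nlinarith [sq_nonneg (c - 0.1914)]
      nlinarith
    nlinarith
  · have h1 : 0 ≤ (1.002 * c - R) * (c / 2 + 1 / 2 - 1.002 * c - R) := mul_nonneg (by linarith) (by linarith)
    nlinarith

/-- step (S7)(ii) -/
theorem xw_fin2 (c R μ K β κ' : ℝ) (h16 : 0.16 < 0.9999 * c) (hc : c < 0.2215)
    (hR : R * (4 - 6 * c) ≤ 3 * c ∨ R ≤ 1.002 * c) (hR0 : 0 ≤ R) (hβ : 1 / 4 < β)
    (hμ : 2 * c * μ < 1.9998 * c - R - c / 2) (hμβ : 1.9998 * c - R ≤ 2 * c * (μ + β))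
    (h1 : κ' * (0.9999 - μ) ≤ K * β) (h2 : R ≤ 1 / 2 - 2 * β + 4 * κ') : R - 2 * K - μ < -0.2985 := by
  have hR25 : R ≤ 1 / 4 := by
    rcases hR with h | h
    · by_contra hcon
      push Not at hcon
      have h46 : 0 < 4 - 6 * c := by linarith
      nlinarith
    · linarith
  have hc0 : 0 < c := by linarith
  have hfin := xw_fin2a c R h16 hc hR
  -- `δ = th - μ`
  obtain ⟨δ, hδ⟩ : ∃ δ : ℝ, δ = (1.9998 * c - R) / (2 * c) - μ := ⟨_, rfl⟩
  have hδ1 : 2 * c * (0.9999 - μ) = 2 * c * δ + R := by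
    rw [hδ]; field_simp; ring
  have hδ2 : 1 / 4 < δ := by
    by_contra hcon
    push Not at hcon
    nlinarith
  have hδ3 : δ ≤ β := by
    by_contra hcon
    push Not at hcon
    nlinarith
  have hμ1 : 0 < 0.9999 - μ := by
    by_contra hcon
    push Not at hcon
    nlinarith
  by_contra hcon
  push Not at hcon
  have h3 : -0.2985 * β ≤ (R - 2 * K - μ) * β := mul_le_mul_of_nonneg_right hcon (by linarith)
  have h4 : (R - 1 / 2 + 2 * β) / 4 * (0.9999 - μ) ≤ κ' * (0.9999 - μ) :=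
    mul_le_mul_of_nonneg_right (by linarith) hμ1.le
  have h5 : β * (0.7014 - R) ≤ (0.9999 - μ) * (1 / 2 - R) / 2 := by nlinarith
  have h6 : 4 * c * (β * (0.7014 - R)) ≤ (2 * c * (0.9999 - μ)) * (1 / 2 - R) := by nlinarith
  rw [hδ1] at h6
  have h7 : 4 * c * (δ * (0.7014 - R)) ≤ 4 * c * (β * (0.7014 - R)) := by
    apply mul_le_mul_of_nonneg_left _ (by linarith)
    exact mul_le_mul_of_nonneg_right hδ3 (by linarith)
  have h8 : R ≤ 4 * δ * R := by nlinarith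
  have h9 : (2 * c * δ + R) * (1 / 2 - R) ≤ (2 * c * δ + 4 * δ * R) * (1 / 2 - R) :=
    mul_le_mul_of_nonneg_right (by linarith) (by linarith)
  have h10 : 0 < δ * (0.4514 * c - R * (c / 2 + 1 / 2 - R)) := mul_pos (by linarith) (by linarith)
  nlinarith

/-- **XW** -/
theorem t_XW (hPR2 : S_PR2) (hMINF : S_MINF) (hLVC : S_LVC) (hMUL : S_MUL) : S_XW := by
  intro al ka lam R hC hpos
  by_contra hno
  have hno' : ∀ x : ℝ, x < 0 → ¬ Alt (1 / 2) 0.306 x al ka R := fun x hx h => hno ⟨x, hx, h⟩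
  have hone : ∑ i, al i = 1 := by
    have h := hC.one
    have h2 := abs_nonneg (∑ i, al i - 1)
    have h3 : |∑ i, al i - 1| = 0 := le_antisymm h h2
    have h4 := abs_eq_zero.1 h3
    linarith
  obtain ⟨i, hi1, hi2⟩ := hMINF al ka hC.nn hone
  have hRa : ∑ i, ka i ≤ R := by
    by_contra h
    push Not at h
    exact hno' (R - ∑ i, ka i) (by linarith) (Or.inl (by linarith))
  have hRb : 2 * ∑ i, ka i - 0.194 ≤ R := by
    by_contra h
    push Not at h
    exact hno' (R - 2 * ∑ i, ka i + 0.194) (by linarith) (Or.inr (Or.inl (by linarith)))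
  have hla := hC.la
  have hR0 := hC.R0
  obtain ⟨c, hc⟩ : ∃ c : ℝ, c = (∑ i, ka i) / 0.9999 := ⟨_, rfl⟩
  have hcdef : ∑ i, ka i = 0.9999 * c := by
    rw [hc]; field_simp
  have hki : ka i ≤ c * al i := by
    rw [hc, div_mul_eq_mul_div, le_div_iff₀ (by norm_num)]
    linarith
  have hcpos : 0 < c := by
    rw [hc]; exact div_pos hpos (by norm_num)
  have hmobsm : ∀ i : Fin 10, 1 / 5 < al i → al i / 2 - lam / 6 ≤ ka i ∧ R ≤ lam - 2 * al i + 4 * ka i := by
    intro i hi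
    rcases lt_or_ge (i : ℕ) 5 with h | h
    · have := hC.mob i h
      linarith
    · have := hC.smo i h
      exact ⟨by linarith [this.2.1], by linarith [this.2.2.2]⟩
  obtain ⟨hK1, hK2, hK3⟩ := xw_core hMUL (al i) c R hi1 hcpos (by linarith) (by linarith) (by linarith)
    (fun h => ⟨by linarith [(hmobsm i h).2], by linarith [(hmobsm i h).1]⟩)
    (fun m h1 h2 => hLVC (1 / 2) al ka lam R _ i m hC hi1 hki h1 h2)
  have hDpos : 0 < 1.9998 * c - R := by
    rcases hK3 with h | h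
    · by_contra hcon
      push Not at hcon
      have h46 : 0 < 4 - 6 * c := by linarith
      nlinarith
    · linarith
  have hth1 : (1.9998 * c - R) / (2 * c) ≤ 0.9999 := by
    rw [div_le_iff₀ (by linarith)]
    linarith
  obtain ⟨S, j, hjS, hj1, hS1, hS2, hS3, hS4⟩ := hPR2 al ka ((1.9998 * c - R) / (2 * c)) hC.nn hone
    (div_pos hDpos (by linarith)) hth1
  obtain ⟨μ, hμ⟩ : ∃ μ : ℝ, μ = ∑ i ∈ S, al i := ⟨_, rfl⟩
  obtain ⟨k, hk⟩ : ∃ k : ℝ, k = ∑ i ∈ S, ka i := ⟨_, rfl⟩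
  rw [← hμ] at hS1 hS2 hS3 hS4
  rw [← hk] at hS3 hS4
  rw [hcdef] at hS3 hS4
  have hgg : gg ka R S = R - 2 * (0.9999 * c - k) := by
    unfold gg
    rw [hcdef, hk]
  have hkc : k ≤ μ * c := by linarith
  rw [lt_div_iff₀ (by linarith)] at hS1
  rw [div_le_iff₀ (by linarith)] at hS2
  have hμ0 : 0 ≤ μ := by
    rw [hμ]; exact Finset.sum_nonneg (fun i _ => (hC.nn i).1)
  have hg0 : gg ka R S < 0 := by
    rw [hgg]; linarith
  have hmain : gg ka R S - μ < -0.2985 := by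
    by_cases hcase : 1.9998 * c - R - c / 2 ≤ 2 * c * μ
    · exact xw_fin1 c R μ _ hK1 hK2 hK3 hcase (by rw [hgg]; linarith)
    · push Not at hcase
      have hβ : 1 / 4 < al j := by
        by_contra hcon
        push Not at hcon
        nlinarith
      have h2 := (hmobsm j (by linarith)).2
      have := xw_fin2 c R μ (0.9999 * c - k) (al j) (ka j) hK1 hK2 hK3 hR0.1 hβ hcase (by linarith) hS4 (by linarith)
      rw [hgg]
      exact this
  exact hno (win_mk (1 / 2) 0.306 al ka R S hg0 (by rw [← hμ]; linarith) (by rw [← hμ]; linarith))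

end Pool.Agent.Q124.KT
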