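import Mathlib
import Pool.Agent.Q278.KT.Stm
import Pool.Agent.Q124.KT.XW

/-!
# KT-XV (project KT of helper278, MP_768c9c_nt): the optimisation `OPTX 0.43 0.045`
-/

set_option autoImplicit false

namespace Pool.Agent.Q124.KT

open Finset Pool.Agent.Q240.KS Pool.Agent.Q278.KT

/-- steps (T1)-(T3) -/
theorem xv_core (hMUL : S_MUL) (a c R : ℝ) (ha : 1 / 100000 ≤ a) (hc : 0 < c) (hN1 : 0.9999 * c ≤ R)
    (hN2 : 1.9998 * c - 0.385 ≤ R) (hR2 : R ≤ 0.43)
    (hsm : 1 / 5 < a → R ≤ 0.43 - 2 * a + 4 * (c * a))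
    (hlv : ∀ m : ℕ, 1 ≤ m → m ≤ 100000 → R ≤ max (2 * (m * a) * c)
      (min (0.43 - (m * a) + 2 * (m * a) * c) (0.43 - 2 * (m * a) + 6 * (m * a) * c))) :
    c ≤ 0.2902 ∧ 0.2366 ≤ c ∧ R * (1 + c) ≤ 1.29 * c ∧ R * (2 - 3 * c) ≤ 1.29 * c ∧ R ≤ 1.032 * c := by
  have hc4 : c ≤ 0.4077 := by linarith
  have hT1 : a < 0.2475 := by
    by_contra h
    push Not at h
    have h1 := hsm (by linarith)
    rcases le_or_gt (4 * a) 0.9999 with h2 | h2
    · nlinarith
    · nlinarith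
  have hkey : ∀ m : ℕ, 1 ≤ m → m ≤ 100000 → 0.361 ≤ (m : ℝ) * a → (m : ℝ) * a ≤ 0.4995 → False := by
    intro m h1 h2 h3 h4
    have h5 := hlv m h1 h2
    obtain ⟨b, hb⟩ : ∃ b : ℝ, b = m * a := ⟨_, rfl⟩
    rw [← hb] at h3 h4 h5
    rcases le_max_iff.1 h5 with h6 | h6
    · nlinarith
    · obtain ⟨h7, h8⟩ := le_min_iff.1 h6
      rcases le_or_gt c (1 / 4) with h9 | h9
      · nlinarith
      · nlinarith
  have hA : 0.1385 < a := by
    by_contra h
    push Not at h
    obtain ⟨m, h2, h3, h4, h5⟩ := hMUL a 0.361 0.4995 ha (by norm_num) (by linarith) (by norm_num)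
    exact hkey m h2 h3 h4 h5
  have hB : 0.1665 < a := by
    by_contra h
    push Not at h
    exact hkey 3 (by norm_num) (by norm_num) (by push_cast; linarith) (by push_cast; linarith)
  have hC : a < 0.1805 := by
    by_contra h
    push Not at h
    exact hkey 2 (by norm_num) (by norm_num) (by push_cast; linarith) (by push_cast; linarith)
  have h2 := hlv 2 (by norm_num) (by norm_num)
  have h3 := hlv 3 (by norm_num) (by norm_num)
  push_cast at h2 h3
  have hR6 : R ≤ 6 * a * c := by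
    rcases le_max_iff.1 h3 with h | h
    · linarith
    · exfalso
      have h4 := (le_min_iff.1 h).1
      nlinarith
  obtain ⟨e1, e2⟩ : R ≤ 0.43 - 2 * a * (1 - 2 * c) ∧ R ≤ 0.43 - 2 * a * (2 - 6 * c) := by
    rcases le_max_iff.1 h2 with h | h
    · exfalso
      nlinarith
    · obtain ⟨h4, h5⟩ := le_min_iff.1 h
      exact ⟨by linarith, by linarith⟩
  have hthree : R * (1 + c) ≤ 1.29 * c := by
    have h4 : 0 ≤ (6 * a * c - R) * (1 - 2 * c) := mul_nonneg (by linarith) (by linarith)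
    have h5 : 3 * c * R ≤ 3 * c * (0.43 - 2 * a * (1 - 2 * c)) := mul_le_mul_of_nonneg_left e1 (by linarith)
    nlinarith
  have hc29 : c ≤ 0.2902 := by
    by_contra h
    push Not at h
    nlinarith
  have hfour : R * (2 - 3 * c) ≤ 1.29 * c := by
    have h4 : 0 ≤ (6 * a * c - R) * (2 - 6 * c) := mul_nonneg (by linarith) (by linarith)
    have h5 : 3 * c * R ≤ 3 * c * (0.43 - 2 * a * (2 - 6 * c)) := mul_le_mul_of_nonneg_left e2 (by linarith)
    nlinarith
  have hc23 : 0.2366 ≤ c := by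
    by_contra h
    push Not at h
    nlinarith
  refine ⟨hc29, hc23, hthree, hfour, ?_⟩
  rcases le_or_gt c (1 / 4) with h | h
  · by_contra hcon
    push Not at hcon
    nlinarith
  · by_contra hcon
    push Not at hcon
    nlinarith

/-- step (T4)(i) -/
theorem xv_fin1 (c R μ g : ℝ) (hc1 : c ≤ 0.2902) (hc2 : 0.2366 ≤ c) (h3 : R * (1 + c) ≤ 1.29 * c)
    (h4 : R * (2 - 3 * c) ≤ 1.29 * c) (hμ : 1.9998 * c - R - 0.361 * c ≤ 2 * c * μ)
    (hg : g ≤ -(1.9998 * c - R) + 2 * c * μ) : g - μ < -0.385 := by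
  have hc0 : 0 < c := by linarith
  have hD : R < 0.8688 * c + 0.722 * c ^ 2 := by
    rcases le_or_gt c (1 / 4) with h | h
    · by_contra hcon
      push Not at hcon
      have h5 : (0.8688 * c + 0.722 * c ^ 2) * (2 - 3 * c) ≤ R * (2 - 3 * c) :=
        mul_le_mul_of_nonneg_right hcon (by linarith)
      have h6 : 0 < c * ((0.8688 + 0.722 * c) * (2 - 3 * c) - 1.29) := by
        apply mul_pos hc0
        nlinarith
      nlinarith
    · by_contra hcon
      push Not at hcon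
      have h5 : (0.8688 * c + 0.722 * c ^ 2) * (1 + c) ≤ R * (1 + c) :=
        mul_le_mul_of_nonneg_right hcon (by linarith)
      have h6 : 0 < c * ((0.8688 + 0.722 * c) * (1 + c) - 1.29) := by
        apply mul_pos hc0
        nlinarith
      nlinarith
  by_contra hcon
  push Not at hcon
  have h1 : -0.385 ≤ -(1.9998 * c - R) - (1 - 2 * c) * μ := by linarith
  have h2 : -0.385 * (2 * c) ≤ (-(1.9998 * c - R) - (1 - 2 * c) * μ) * (2 * c) :=
    mul_le_mul_of_nonneg_right h1 (by linarith)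
  have h5 : (1 - 2 * c) * (1.9998 * c - R - 0.361 * c) ≤ (1 - 2 * c) * (2 * c * μ) :=
    mul_le_mul_of_nonneg_left hμ (by linarith)
  nlinarith

/-- the claim in step (T4)(ii) -/
theorem xv_claim (lam R β κ' : ℝ) (hR : 0 < R) (hR2 : R ≤ 0.43) (hlam : lam ≤ 0.43) (hβ1 : 0.1805 < β)
    (hβ2 : β ≤ 1 / 5) (h : R ≤ max (4 * κ') (min (lam - 2 * β + 4 * κ') (lam - 4 * β + 12 * κ'))) : R * β ≤ κ' := by
  by_contra hcon
  push Not at hcon
  rcases le_max_iff.1 h with h | h
  · nlinarith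
  · obtain ⟨h1, h2⟩ := le_min_iff.1 h
    rcases le_or_gt R (1 / 4) with h3 | h3
    · nlinarith
    · nlinarith

/-- step (T4)(ii) -/
theorem xv_fin2 (c R μ K β κ' : ℝ) (hc1 : c ≤ 0.2902) (hc2 : 0.2366 ≤ c) (hR : R ≤ 1.032 * c) (hN1 : 0.9999 * c ≤ R)
    (hμ1 : 2 * c * μ < 1.9998 * c - R) (hμβ : 1.9998 * c - R ≤ 2 * c * (μ + β)) (hβ0 : 0 < β) (hβ2 : β ≤ 1 / 5)
    (h1 : κ' * (0.9999 - μ) ≤ K * β) (h2 : R * β ≤ κ') : R - 2 * K - μ < -0.385 := by
  have hc0 : 0 < c := by linarith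
  have hμ : 0.2839 ≤ μ := by
    by_contra hcon
    push Not at hcon
    nlinarith
  have hμ2 : μ < 0.9999 := by
    by_contra hcon
    push Not at hcon
    nlinarith
  have h3 : R * β * (0.9999 - μ) ≤ K * β := le_trans (mul_le_mul_of_nonneg_right h2 (by linarith)) h1
  have h4 : R * (0.9999 - μ) ≤ K := by
    by_contra hcon
    push Not at hcon
    nlinarith
  have h5 : 0 ≤ (1 - 2 * R) * (μ - 0.2839) := mul_nonneg (by linarith) (by linarith)
  nlinarith

/-- step (T4)(iii) -/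
theorem xv_fin3 (c R μ K β κ' : ℝ) (hc1 : c ≤ 0.2902) (hc2 : 0.2366 ≤ c) (hR : R ≤ 1.032 * c) (hN1 : 0.9999 * c ≤ R)
    (hμ1 : 2 * c * μ < 1.9998 * c - R) (hμβ : 1.9998 * c - R ≤ 2 * c * (μ + β)) (hβ : 1 / 5 < β)
    (h1 : κ' * (0.9999 - μ) ≤ K * β) (h2 : R ≤ 0.43 - 2 * β + 4 * κ') : R - 2 * K - μ < -0.385 := by
  have hc0 : 0 < c := by linarith
  have hμ2 : μ < 0.9999 := by
    by_contra hcon
    push Not at hcon
    nlinarith
  have hμ3 : 0.9999 - μ ≤ 0.516 + β := by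
    by_contra hcon
    push Not at hcon
    nlinarith
  by_contra hcon
  push Not at hcon
  have h3 : -0.385 * β ≤ (R - 2 * K - μ) * β := mul_le_mul_of_nonneg_right hcon (by linarith)
  have h4 : (R - 0.43 + 2 * β) / 4 * (0.9999 - μ) ≤ κ' * (0.9999 - μ) :=
    mul_le_mul_of_nonneg_right (by linarith) (by linarith)
  have h5 : β * (0.6149 - R) ≤ (0.9999 - μ) * (0.43 - R) / 2 := by nlinarith
  have h6 : (0.9999 - μ) * (0.43 - R) ≤ (3.58 * β) * (0.43 - R) :=
    mul_le_mul_of_nonneg_right (by linarith) (by linarith)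
  nlinarith

/-- **XV** -/
theorem t_XV (hPR2 : S_PR2) (hMINF : S_MINF) (hLVC : S_LVC) (hMUL : S_MUL) : S_XV := by
  intro al ka lam R hC hpos
  by_contra hno
  have hno' : ∀ x : ℝ, x < 0 → ¬ Alt 0.43 0.045 x al ka R := fun x hx h => hno ⟨x, hx, h⟩
  have hone : ∑ i, al i = 1 := by
    have h := hC.one
    have h2 := abs_nonneg (∑ i, al i - 1)
    have h3 : |∑ i, al i - 1| = 0 := le_antisymm h h2
    have h4 := abs_eq_zero.1 h3
    linarith
  obtain ⟨i, hi1, hi2⟩ := hMINF al ka hC.nn hone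
  have hRa : ∑ i, ka i ≤ R := by
    by_contra h
    push Not at h
    exact hno' (R - ∑ i, ka i) (by linarith) (Or.inl (by linarith))
  have hRb : 2 * ∑ i, ka i - 0.385 ≤ R := by
    by_contra h
    push Not at h
    exact hno' (R - 2 * ∑ i, ka i + 0.385) (by linarith) (Or.inr (Or.inl (by linarith)))
  have hla := hC.la
  have hR0 := hC.R0
  obtain ⟨c, hc⟩ : ∃ c : ℝ, c = (∑ i, ka i) / 0.9999 := ⟨_, rfl⟩
  have hcdef : ∑ i, ka i = 0.9999 * c := by
    rw [hc]; field_simp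
  have hki : ka i ≤ c * al i := by
    rw [hc, div_mul_eq_mul_div, le_div_iff₀ (by norm_num)]
    linarith
  have hcpos : 0 < c := by
    rw [hc]; exact div_pos hpos (by norm_num)
  have hmobsm : ∀ i : Fin 10, 1 / 5 < al i → R ≤ lam - 2 * al i + 4 * ka i := by
    intro i hi
    rcases lt_or_ge (i : ℕ) 5 with h | h
    · have := hC.mob i h
      linarith
    · have := hC.smo i h
      linarith [this.2.2.2]
  obtain ⟨hc1, hc2, h3, h4, h5⟩ := xv_core hMUL (al i) c R hi1 hcpos (by linarith) (by linarith) (by linarith)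
    (fun h => by linarith [hmobsm i h])
    (fun m h1 h2 => hLVC 0.43 al ka lam R _ i m hC hi1 hki h1 h2)
  have hDpos : 0 < 1.9998 * c - R := by linarith
  have hth1 : (1.9998 * c - R) / (2 * c) ≤ 0.9999 := by
    rw [div_le_iff₀ (by linarith)]
    linarith
  obtain ⟨S, j, hjS, hj1, hS1, hS2, hS3, hS4⟩ := hPR2 al ka ((1.9998 * c - R) / (2 * c)) hC.nn hone
    (div_pos hDpos (by linarith)) hth1
  obtain ⟨μ, hμ⟩ : ∃ μ : ℝ, μ = ∑ i ∈ S, al i := ⟨_, rfl⟩
  obtain ⟨k, hk⟩ : ∃ k : ℝ, k = ∑ i ∈ S, ka i := ⟨_, rfl⟩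
  rw [← hμ] at hS1 hS2 hS3 hS4
  rw [← hk] at hS3 hS4
  rw [hcdef] at hS3 hS4
  have hgg : gg ka R S = R - 2 * (0.9999 * c - k) := by
    unfold gg
    rw [hcdef, hk]
  have hkc : k ≤ μ * c := by linarith
  rw [lt_div_iff₀ (by linarith)] at hS1
  rw [div_le_iff₀ (by linarith)] at hS2
  have hg0 : gg ka R S < 0 := by
    rw [hgg]; linarith
  have hRpos : 0 < R := by linarith
  have hmain : gg ka R S - μ < -0.385 := by
    rcases le_or_gt (al j) 0.1805 with hj | hj
    · refine xv_fin1 c R μ _ hc1 hc2 h3 h4 ?_ (by rw [hgg]; linarith)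
      nlinarith
    rcases le_or_gt (al j) (1 / 5) with hj2 | hj2
    · have hlv := hC.lv j hj1 2 (by norm_num) (by norm_num)
      push_cast at hlv
      have hcl : R * al j ≤ ka j := by
        refine xv_claim lam R (al j) (ka j) hRpos (by linarith) (by linarith) hj hj2 ?_
        rw [add_zero] at hlv
        have e1 : 2 * 2 * ka j = 4 * ka j := by ring
        have e2 : 2 * 2 * al j = 4 * al j := by ring
        have e3 : 6 * 2 * ka j = 12 * ka j := by ring
        rw [e1, e2, e3] at hlv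
        exact hlv
      rw [hgg]
      exact xv_fin2 c R μ (0.9999 * c - k) (al j) (ka j) hc1 hc2 h5 (by linarith) (by linarith) (by linarith)
        (by linarith) hj2 hS4 hcl
    · have h2 := hmobsm j (by linarith)
      rw [hgg]
      exact xv_fin3 c R μ (0.9999 * c - k) (al j) (ka j) hc1 hc2 h5 (by linarith) (by linarith) (by linarith)
        hj2 hS4 (by linarith)
  exact hno (win_mk 0.43 0.045 al ka R S hg0 (by rw [← hμ]; linarith) (by rw [← hμ]; linarith))

end Pool.Agent.Q124.KT
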